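import Pool.Agent.N728.SP.Def

/-!
# The identity for the singular series
-/

set_option autoImplicit false

namespace Pool.Agent.N525.SP

open Finset Pool.Agent.N728.SP

namespace H1

theorem mem_RR {M Q r : ℕ} : r ∈ RR M Q ↔ (1 ≤ r ∧ r ≤ Q) ∧ Squarefree r ∧ r.Coprime M := by
  simp [RR]

/-- Totient of `D e`. -/
theorem tot {D e : ℕ} (hD : D ≠ 0) (he : Squarefree e) :
    (Nat.totient (D * e) : ℝ) = Nat.totient D *
      ∏ p ∈ e.primeFactors, (if p ∣ D then (p : ℝ) else (p : ℝ) - 1) := by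
  have key : ∀ n : ℕ, (Nat.totient n : ℝ) = n * ∏ p ∈ n.primeFactors, (1 - (p : ℝ)⁻¹) := by
    intro n
    have h := Nat.totient_eq_mul_prod_factors n
    have h2 := congrArg (fun q : ℚ => (q : ℝ)) h
    push_cast at h2
    exact h2
  rw [key (D * e), key D, Nat.primeFactors_mul hD he.ne_zero]
  have h1 : ∏ p ∈ D.primeFactors ∪ e.primeFactors, (1 - (p : ℝ)⁻¹) =
      (∏ p ∈ D.primeFactors, (1 - (p : ℝ)⁻¹)) *
        ∏ p ∈ e.primeFactors, (if p ∣ D then (1 : ℝ) else 1 - (p : ℝ)⁻¹) := by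
    rw [← Finset.union_sdiff_self_eq_union, Finset.prod_union Finset.disjoint_sdiff]
    congr 1
    rw [Finset.sdiff_eq_filter, Finset.prod_filter]
    refine Finset.prod_congr rfl fun p hp => ?_
    have hpp := Nat.prime_of_mem_primeFactors hp
    by_cases h : p ∣ D
    · rw [if_pos h, if_neg (by simpa [hpp, hD] using h)]
    · rw [if_neg h, if_pos (by simpa [hpp, hD] using h)]
  rw [h1]
  have h2 : (e : ℝ) = ∏ p ∈ e.primeFactors, (p : ℝ) := by
    conv_lhs => rw [← Nat.prod_primeFactors_of_squarefree he]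
    push_cast
    rfl
  have h3 : (e : ℝ) * ∏ p ∈ e.primeFactors, (if p ∣ D then (1 : ℝ) else 1 - (p : ℝ)⁻¹) =
      ∏ p ∈ e.primeFactors, (if p ∣ D then (p : ℝ) else (p : ℝ) - 1) := by
    rw [h2, ← Finset.prod_mul_distrib]
    refine Finset.prod_congr rfl fun p hp => ?_
    have hpp := Nat.prime_of_mem_primeFactors hp
    have h0 : (p : ℝ) ≠ 0 := by exact_mod_cast hpp.ne_zero
    split_ifs
    · rw [mul_one]
    · rw [mul_sub, mul_inv_cancel₀ h0, mul_one]
  rw [← h3]
  push_cast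
  ring

theorem mu {e : ℕ} (he : Squarefree e) :
    ((ArithmeticFunction.moebius e : ℤ) : ℝ) = ∏ _p ∈ e.primeFactors, (-1 : ℝ) := by
  have h1 : ArithmeticFunction.moebius e = ∏ p ∈ e.primeFactors, ArithmeticFunction.moebius p := by
    conv_lhs => rw [← Nat.prod_primeFactors_of_squarefree he]
    exact ArithmeticFunction.isMultiplicative_moebius.map_prod_of_prime e.primeFactors
      (fun p hp => Nat.prime_of_mem_primeFactors hp)
  rw [h1]
  push_cast
  refine Finset.prod_congr rfl fun p hp => ?_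
  rw [ArithmeticFunction.moebius_apply_prime (Nat.prime_of_mem_primeFactors hp)]
  norm_num

/-- The factor at a prime. -/
noncomputable def g (D U p : ℕ) : ℝ :=
  if p ∣ U then 0 else -((p : ℝ) / (if p ∣ D then (p : ℝ) else (p : ℝ) - 1))

theorem term {D U e : ℕ} (hD : D ≠ 0) (he : Squarefree e) :
    (if e.Coprime U then ((ArithmeticFunction.moebius e : ℤ) : ℝ) * e / Nat.totient (D * e) else 0) =
      1 / (Nat.totient D : ℝ) * ∏ p ∈ e.primeFactors, g D U p := by
  split_ifs with h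
  · rw [mu he, tot hD he]
    have h2 : (e : ℝ) = ∏ p ∈ e.primeFactors, (p : ℝ) := by
      conv_lhs => rw [← Nat.prod_primeFactors_of_squarefree he]
      push_cast
      rfl
    rw [h2, ← Finset.prod_mul_distrib, mul_comm (Nat.totient D : ℝ), ← div_div,
      ← Finset.prod_div_distrib, div_eq_mul_one_div, mul_comm]
    congr 1
    refine Finset.prod_congr rfl fun p hp => ?_
    have hpp := Nat.prime_of_mem_primeFactors hp
    have hpU : ¬ p ∣ U := fun hpU =>
      hpp.one_lt.ne' (Nat.eq_one_of_dvd_coprimes h (Nat.dvd_of_mem_primeFactors hp) hpU)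
    rw [g, if_neg hpU]
    ring
  · obtain ⟨p, hp, hpe, hpU⟩ := Nat.Prime.not_coprime_iff_dvd.1 h
    rw [Finset.prod_eq_zero (i := p) (by simp [hp, hpe, he.ne_zero]) (by rw [g, if_pos hpU]), mul_zero]

theorem sum_div {D U r : ℕ} (hr : Squarefree r) :
    ∑ e ∈ r.divisors, ∏ p ∈ e.primeFactors, g D U p = ∏ p ∈ r.primeFactors, (1 + g D U p) := by
  have h := (ArithmeticFunction.IsMultiplicative.prodPrimeFactors
    (g D U)).prodPrimeFactors_one_add_of_squarefree hr
  have h1 : ∀ p ∈ r.primeFactors, 1 + ArithmeticFunction.prodPrimeFactors (g D U) p =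
      1 + g D U p := by
    intro p hp
    have hpp := Nat.prime_of_mem_primeFactors hp
    rw [ArithmeticFunction.prodPrimeFactors_apply hpp.ne_zero, hpp.primeFactors,
      Finset.prod_singleton]
  rw [← Finset.prod_congr rfl h1, h]
  refine Finset.sum_congr rfl fun e he => ?_
  rw [ArithmeticFunction.prodPrimeFactors_apply (Nat.pos_of_mem_divisors he).ne']

theorem kap_eq {M x u p : ℕ} (hp : p.Prime) (hu : 1 ≤ u) (hxu : x ∣ u) (hpM : ¬ p ∣ M) :
    1 + g (M ^ 3 * x) (u ^ 2 + u - 1) p = kap p x u := by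
  have hD : p ∣ M ^ 3 * x ↔ p ∣ x := by
    rw [hp.dvd_mul]
    exact ⟨fun h => h.resolve_left fun h' => hpM (hp.dvd_of_dvd_pow h'), Or.inr⟩
  have h0 : (p : ℝ) ≠ 0 := by exact_mod_cast hp.ne_zero
  have h1 : (p : ℝ) - 1 ≠ 0 := by
    have : (1 : ℝ) < p := by exact_mod_cast hp.one_lt
    linarith
  unfold g kap
  simp only [hD]
  by_cases hx : p ∣ x
  · have hpu : p ∣ u := hx.trans hxu
    have hU : ¬ p ∣ u ^ 2 + u - 1 := by
      intro h
      have h2 : p ∣ u ^ 2 + u := dvd_add (dvd_pow hpu two_ne_zero) hpu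
      have h3 : p ∣ (u ^ 2 + u) - (u ^ 2 + u - 1) := Nat.dvd_sub h2 h
      have h4 : (u ^ 2 + u) - (u ^ 2 + u - 1) = 1 := by
        have : 1 ≤ u ^ 2 + u := by nlinarith
        omega
      rw [h4] at h3
      exact hp.one_lt.ne' (Nat.dvd_one.1 h3)
    rw [if_neg hU, if_pos hx, if_pos hx, div_self h0]
    norm_num
  · rw [if_neg hx, if_neg hx]
    split_ifs
    · norm_num
    · field_simp
      ring

end H1

open H1 in
theorem t_H1 : S_H1 := by
  intro M Q x u hM hx hu hMu hxu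
  set U := u ^ 2 + u - 1 with hU
  set D := M ^ 3 * x with hDdef
  have hD : D ≠ 0 := by positivity
  have step1 : ∀ e ∈ (RR M Q).filter (fun e => e.Coprime U), ww M Q e / (Nat.totient (D * e) : ℝ) =
      ∑ r ∈ RR M Q, if e ∣ r then 1 / (Nat.totient r : ℝ) *
        (((ArithmeticFunction.moebius e : ℤ) : ℝ) * e / Nat.totient (D * e)) else 0 := by
    intro e _
    rw [← Finset.sum_filter, ww, Finset.mul_sum, Finset.sum_div]
    refine Finset.sum_congr rfl fun r _ => ?_
    ring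
  rw [Finset.sum_congr rfl step1, Finset.sum_comm, SS1, Finset.mul_sum]
  refine Finset.sum_congr rfl fun r hr => ?_
  obtain ⟨⟨hr1, hrQ⟩, hrs, hrM⟩ := mem_RR.1 hr
  rw [← Finset.sum_filter, Finset.filter_filter, ← Finset.mul_sum]
  have hset : (RR M Q).filter (fun e => e.Coprime U ∧ e ∣ r) =
      r.divisors.filter (fun e => e.Coprime U) := by
    ext e
    simp only [Finset.mem_filter, mem_RR, Nat.mem_divisors]
    constructor
    · rintro ⟨-, h1, h2⟩
      exact ⟨⟨h2, by omega⟩, h1⟩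
    · rintro ⟨⟨h1, h2⟩, h3⟩
      have hr0 : 0 < r := by omega
      exact ⟨⟨⟨Nat.pos_of_dvd_of_pos h1 hr0, (Nat.le_of_dvd hr0 h1).trans hrQ⟩,
        hrs.squarefree_of_dvd h1, hrM.coprime_dvd_left h1⟩, h3, h1⟩
  rw [hset, Finset.sum_filter]
  have h2 : ∀ e ∈ r.divisors, (if e.Coprime U then
      ((ArithmeticFunction.moebius e : ℤ) : ℝ) * e / Nat.totient (D * e) else 0) =
      1 / (Nat.totient D : ℝ) * ∏ p ∈ e.primeFactors, g D U p := fun e he =>
    term hD (hrs.squarefree_of_dvd (Nat.dvd_of_mem_divisors he))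
  rw [Finset.sum_congr rfl h2, ← Finset.mul_sum, sum_div hrs]
  have h3 : ∀ p ∈ r.primeFactors, 1 + g D U p = kap p x u := by
    intro p hp
    have hpp := Nat.prime_of_mem_primeFactors hp
    refine kap_eq hpp hu hxu fun hpM => ?_
    exact hpp.one_lt.ne' (Nat.eq_one_of_dvd_coprimes hrM (Nat.dvd_of_mem_primeFactors hp) hpM)
  rw [Finset.prod_congr rfl h3]
  ring

end Pool.Agent.N525.SP
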