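import Pool.Agent.N728.SP.Def

/-!
# Many divisors, sizes of the parameters, proper prime powers
-/

set_option autoImplicit false

namespace Pool.Agent.N525.SP

open Finset Pool.Agent.N728.SP

namespace KSZ

theorem card_div (n : ℕ) : ((primorial n).divisors.card : ℝ) = 2 ^ Nat.primeCounting n := by
  rw [Nat.card_divisors (primorial_ne_zero n), primeFactors_primorial,
    ← Nat.primesLE_card_eq_primeCounting]
  have h : ∀ p ∈ Nat.primesLE n, (primorial n).factorization p + 1 = 2 := by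
    intro p hp
    have hpp := Nat.prime_of_mem_primesLE hp
    have h1 := Nat.factorization_eq_one_of_squarefree (squarefree_primorial n) hpp (hpp.dvd_primorial_iff.2 (Nat.le_of_mem_primesLE hp))
    rw [h1]
  rw [Finset.prod_congr rfl h, Finset.prod_const]
  push_cast
  rfl

theorem K (A : ℕ) : ∃ l0 : ℝ, ∀ l : ℝ, l0 ≤ l →
    l ^ A ≤ ((primorial ⌊l / 2000⌋₊).divisors.card : ℝ) := by
  have hlog2 : 0 < Real.log 2 := Real.log_pos one_lt_two
  have hε : 0 < (Real.log 2) ^ 2 / (4000 * (1 + A)) := by positivity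
  have h1 := (Real.isLittleO_pow_log_id_atTop (n := 2)).bound hε
  obtain ⟨z0, hz0⟩ := Filter.eventually_atTop.1 h1
  refine ⟨max z0 10000, fun l hl => ?_⟩
  have hlz : z0 ≤ l := (le_max_left _ _).trans hl
  have hl4 : (10000 : ℝ) ≤ l := (le_max_right _ _).trans hl
  have h2 := hz0 l hlz
  rw [Real.norm_of_nonneg (by positivity), id, Real.norm_of_nonneg (by linarith)] at h2
  set n := ⌊l / 2000⌋₊ with hn
  have hn1 : (n : ℝ) ≤ l / 2000 := Nat.floor_le (by positivity)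
  have hn2 : l / 2000 < n + 1 := Nat.lt_floor_add_one _
  have hn4 : (4 : ℝ) < n := by linarith
  have hlogl : Real.log 2 ≤ Real.log l := Real.log_le_log (by norm_num) (by linarith)
  have hl0 : 0 < Real.log l := by linarith
  have hlogn : 0 < Real.log n := Real.log_pos (by linarith)
  have hlognl : Real.log n ≤ Real.log l := Real.log_le_log (by linarith) (by linarith)
  have hlogn1 : Real.log (n + 1) ≤ Real.log l := Real.log_le_log (by linarith) (by linarith)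
  have hpi := Chebyshev.pi_ge n
  rw [div_le_iff₀ hlogn] at hpi
  have hpi2 : (n : ℝ) * Real.log 2 - Real.log l ≤ (Nat.primeCounting n : ℝ) * Real.log l := by
    have : (Nat.primeCounting n : ℝ) * Real.log n ≤ (Nat.primeCounting n : ℝ) * Real.log l := by
      gcongr
    linarith
  have h3 : (1 + A) * Real.log l ^ 2 ≤ l / 4000 * Real.log 2 ^ 2 := by
    have h4 : (1 + (A : ℝ)) * Real.log l ^ 2 ≤ (1 + A) * (Real.log 2 ^ 2 / (4000 * (1 + A)) * l) := by
      gcongr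
    refine h4.trans (le_of_eq ?_)
    field_simp
  have h5 : A * Real.log l ≤ Nat.primeCounting n * Real.log 2 := by
    have h6 : l / 4000 ≤ n := by linarith
    have h7 : l / 4000 * Real.log 2 ^ 2 ≤ n * Real.log 2 ^ 2 := by gcongr
    have h8 : (A * Real.log l) * Real.log l ≤ (Nat.primeCounting n * Real.log 2) * Real.log l := by
      have h9 := mul_le_mul_of_nonneg_right hpi2 hlog2.le
      nlinarith
    exact le_of_mul_le_mul_right h8 hl0
  rw [card_div]
  have e1 : l ^ A = Real.exp (A * Real.log l) := by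
    rw [mul_comm, Real.exp_mul, Real.exp_log (by linarith), Real.rpow_natCast]
  have e2 : (2 : ℝ) ^ Nat.primeCounting n = Real.exp (Nat.primeCounting n * Real.log 2) := by
    rw [mul_comm, Real.exp_mul, Real.exp_log (by norm_num), Real.rpow_natCast]
  rw [e1, e2]
  exact Real.exp_le_exp.2 h5

theorem PC : ∀ N : ℕ, 1 ≤ N →
  (((Icc 1 N).filter (fun n => IsPrimePow n ∧ ¬ n.Prime)).card : ℝ) ≤ Real.sqrt N * (2 * Real.log N + 1) := by
  intro N hN
  have hsub : (Icc 1 N).filter (fun n => IsPrimePow n ∧ ¬ n.Prime) ⊆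
      ((Icc 1 (Nat.sqrt N)) ×ˢ (Icc 1 (Nat.log 2 N))).image (fun q => q.1 ^ q.2) := by
    intro n hn
    rw [mem_filter, mem_Icc] at hn
    obtain ⟨⟨hn1, hnN⟩, hpp, hnp⟩ := hn
    obtain ⟨p, k, hp, hk, rfl⟩ := hpp
    have hp' := hp.nat_prime
    rw [mem_image]
    refine ⟨(p, k), ?_, rfl⟩
    rw [mem_product, mem_Icc, mem_Icc]
    have hk2 : 2 ≤ k := by
      by_contra h
      have : k = 1 := by omega
      subst this
      rw [pow_one] at hnp
      exact hnp hp'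
    refine ⟨⟨hp'.one_lt.le, ?_⟩, hk, ?_⟩
    · rw [Nat.le_sqrt']
      exact (Nat.pow_le_pow_right hp'.pos hk2).trans hnN
    · refine Nat.le_log_of_pow_le one_lt_two ?_
      exact (Nat.pow_le_pow_left hp'.two_le k).trans hnN
  have h1 := (card_le_card hsub).trans card_image_le
  rw [card_product, Nat.card_Icc, Nat.card_Icc, Nat.add_sub_cancel, Nat.add_sub_cancel] at h1
  have h2 : (((Icc 1 N).filter (fun n => IsPrimePow n ∧ ¬ n.Prime)).card : ℝ) ≤
      (Nat.sqrt N : ℝ) * (Nat.log 2 N : ℝ) := by exact_mod_cast h1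
  refine h2.trans ?_
  have hlN : 0 ≤ Real.log N := Real.log_nonneg (by exact_mod_cast hN)
  have h3 : (Nat.sqrt N : ℝ) ≤ Real.sqrt N := Real.nat_sqrt_le_real_sqrt
  have h4 : (Nat.log 2 N : ℝ) ≤ 2 * Real.log N + 1 := by
    have h5 : (2 : ℝ) ^ (Nat.log 2 N) ≤ N := by exact_mod_cast Nat.pow_log_le_self 2 (by omega)
    have h6 := Real.log_le_log (by positivity) h5
    rw [Real.log_pow] at h6
    have h7 : (1 / 2 : ℝ) ≤ Real.log 2 := by linarith [Real.log_two_gt_d9]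
    have h8 : (Nat.log 2 N : ℝ) * (1 / 2) ≤ Real.log N := by
      refine le_trans ?_ h6
      gcongr
    linarith
  gcongr

theorem siz : ∃ l0 : ℝ, ∀ l : ℝ, l0 ≤ l → ∀ (M Q V Y : ℕ) (X : ℝ),
    M = primorial ⌊l / 2000⌋₊ → Q = ⌊Real.exp (l / 100)⌋₊ → V = ⌊Real.exp (l ^ 40 / 2 - l / 8)⌋₊ →
    X = Real.exp (l ^ 40) → Y = ⌊X / ((M : ℝ) ^ 3 * V)⌋₊ →
  (1 : ℝ) ≤ l ∧ (M : ℝ) ≤ Real.exp (l / 1400) ∧ M ^ 2 ≤ Q ∧ Q ^ 2 ≤ V ∧ V ≤ Y ∧
  M ^ 2 ≤ Y ∧ Real.exp (l ^ 40 / 2 - l / 8) / 2 ≤ V ∧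
  X / (2 * ((M : ℝ) ^ 3 * V)) ≤ Y ∧ (M : ℝ) * (4 * M * Y) + 1 ≤ Real.exp (l ^ 40 / 2 + l / 8) := by
  refine ⟨10000, fun l hl M Q V Y X hM hQ hV hX hY => ?_⟩
  have hl1 : (1 : ℝ) ≤ l := by linarith
  have hl40 : l ≤ l ^ 40 := le_self_pow₀ hl1 (by norm_num)
  have hn1 : (⌊l / 2000⌋₊ : ℝ) ≤ l / 2000 := Nat.floor_le (by positivity)
  have hM30 : (30 : ℝ) ≤ M := by
    have h5 : 5 ≤ ⌊l / 2000⌋₊ := Nat.le_floor (by push_cast; linarith)
    have h6 : primorial 5 ≤ M := hM ▸ primorial_mono h5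
    have h7 : primorial 5 = 30 := by decide
    rw [h7] at h6
    exact_mod_cast h6
  have hMe : (M : ℝ) ≤ Real.exp (l / 1400) := by
    have h1 : (M : ℝ) ≤ (4 : ℝ) ^ ⌊l / 2000⌋₊ := by
      rw [hM]; exact_mod_cast primorial_le_four_pow _
    refine h1.trans ?_
    have e2 : (4 : ℝ) ^ ⌊l / 2000⌋₊ = Real.exp (⌊l / 2000⌋₊ * Real.log 4) := by
      rw [mul_comm, Real.exp_mul, Real.exp_log (by norm_num), Real.rpow_natCast]
    rw [e2]
    refine Real.exp_le_exp.2 ?_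
    have h4 : Real.log 4 = 2 * Real.log 2 := by
      rw [show (4 : ℝ) = 2 ^ 2 by norm_num, Real.log_pow]; norm_num
    have h5 := Real.log_two_lt_d9
    have h6 : 0 < Real.log 4 := Real.log_pos (by norm_num)
    have h7 : (⌊l / 2000⌋₊ : ℝ) * Real.log 4 ≤ l / 2000 * Real.log 4 := by gcongr
    nlinarith
  have hQe : (Q : ℝ) ≤ Real.exp (l / 100) := by rw [hQ]; exact Nat.floor_le (Real.exp_pos _).le
  set a := Real.exp (l ^ 40 / 2 - l / 8) with ha
  have hVa : (V : ℝ) ≤ a := by rw [hV]; exact Nat.floor_le (Real.exp_pos _).le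
  have ha4 : 4 ≤ a := by
    have := Real.add_one_le_exp (l ^ 40 / 2 - l / 8)
    linarith
  have haV : a / 2 ≤ V := by
    have : a < V + 1 := by rw [hV]; exact Nat.lt_floor_add_one _
    linarith
  have hV2 : (2 : ℝ) ≤ V := by linarith
  have hM0 : (0 : ℝ) < M := by linarith
  have hV0 : (0 : ℝ) < V := by linarith
  have c3 : M ^ 2 ≤ Q := by
    rw [hQ]
    refine Nat.le_floor ?_
    push_cast
    calc (M : ℝ) ^ 2 ≤ Real.exp (l / 1400) ^ 2 := by gcongr
      _ = Real.exp (2 * (l / 1400)) := by rw [← Real.exp_nat_mul]; norm_num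
      _ ≤ Real.exp (l / 100) := Real.exp_le_exp.2 (by linarith)
  have c4 : Q ^ 2 ≤ V := by
    rw [hV]
    refine Nat.le_floor ?_
    push_cast
    calc (Q : ℝ) ^ 2 ≤ Real.exp (l / 100) ^ 2 := by gcongr
      _ = Real.exp (2 * (l / 100)) := by rw [← Real.exp_nat_mul]; norm_num
      _ ≤ Real.exp (l ^ 40 / 2 - l / 8) := Real.exp_le_exp.2 (by linarith)
  have hVb : (V : ℝ) ≤ X / ((M : ℝ) ^ 3 * V) := by
    rw [le_div_iff₀ (by positivity), hX]
    calc (V : ℝ) * ((M : ℝ) ^ 3 * V) ≤ a * (Real.exp (l / 1400) ^ 3 * a) := by gcongr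
      _ = Real.exp ((l ^ 40 / 2 - l / 8) + (3 * (l / 1400) + (l ^ 40 / 2 - l / 8))) := by
        rw [Real.exp_add, Real.exp_add, ha, ← Real.exp_nat_mul]; norm_num
      _ ≤ Real.exp (l ^ 40) := Real.exp_le_exp.2 (by linarith)
  have c5 : V ≤ Y := by rw [hY]; exact Nat.le_floor hVb
  have hQQ : Q ≤ Q ^ 2 := Nat.le_self_pow two_ne_zero Q
  have hYb : (Y : ℝ) ≤ X / ((M : ℝ) ^ 3 * V) := by
    rw [hY]; exact Nat.floor_le (by rw [hX]; positivity)
  have hbY : X / ((M : ℝ) ^ 3 * V) < Y + 1 := by rw [hY]; exact Nat.lt_floor_add_one _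
  refine ⟨hl1, hMe, c3, c4, c5, c3.trans (hQQ.trans (c4.trans c5)), haV, ?_, ?_⟩
  · have e : X / (2 * ((M : ℝ) ^ 3 * V)) = X / ((M : ℝ) ^ 3 * V) / 2 := by
      rw [mul_comm, div_div]
    rw [e]
    linarith
  · have h1 : (M : ℝ) * (4 * M * Y) ≤ 4 * M ^ 2 * (X / ((M : ℝ) ^ 3 * V)) := by
      calc (M : ℝ) * (4 * M * Y) = 4 * M ^ 2 * Y := by ring
        _ ≤ 4 * M ^ 2 * (X / ((M : ℝ) ^ 3 * V)) := by gcongr
    have h2 : 4 * (M : ℝ) ^ 2 * (X / ((M : ℝ) ^ 3 * V)) = 4 * X / (M * V) := by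
      field_simp
    have h3 : 4 * X / (M * V) ≤ 4 * X / (30 * (a / 2)) := by
      have : 0 < X := by rw [hX]; positivity
      gcongr
    have h4 : 4 * X / (30 * (a / 2)) = 4 / 15 * Real.exp (l ^ 40 / 2 + l / 8) := by
      have : X = a * Real.exp (l ^ 40 / 2 + l / 8) := by
        rw [hX, ha, ← Real.exp_add]; ring_nf
      rw [this]
      have : a ≠ 0 := by positivity
      field_simp
      norm_num
    have h5 : 2 ≤ Real.exp (l ^ 40 / 2 + l / 8) := by
      have := Real.add_one_le_exp (l ^ 40 / 2 + l / 8)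
      linarith
    rw [h2] at h1
    linarith

end KSZ

/-- Many divisors. -/
theorem t_K : S_K := fun A => KSZ.K A

/-- Sizes of the parameters. -/
theorem t_SIZ : S_SIZ := by
  obtain ⟨l0, h⟩ := KSZ.siz
  exact ⟨l0, fun l hl => h l hl (MM l) (QQ l) (VV l) (YY l) (XX l) rfl rfl rfl rfl rfl⟩

/-- Proper prime powers are rare. -/
theorem t_PC : S_PC := KSZ.PC

end Pool.Agent.N525.SP
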